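import Mathlib
import Pool.Agent.Mg.Fece343.G4b8076

set_option autoImplicit false

namespace Pool.Agent.Results.MP_ece343_co.InverseLO

/-- Small-ball inverse Littlewood-Offord theorem, uniformly in the dimension `d`
(no restriction `d ≤ log n` is needed). The signs are `x i ↦ ±1`, the probability is the number of
sign vectors divided by `2 ^ n`. -/
theorem result :
    ∀ ε : ℝ, 0 < ε → ε < 1 → ∀ C : ℝ, 0 < C → ∃ K : ℕ, ∀ (n d : ℕ), 2 ≤ n →
      ∀ (c : EuclideanSpace ℝ (Fin d)) (a : Fin n → EuclideanSpace ℝ (Fin d)),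
        (n : ℝ) ^ (-C) ≤
          ({x : Fin n → Bool | ∑ i, (if x i then (1 : ℝ) else -1) • a i ∈
            Metric.closedBall c (1 / √n)}.ncard : ℝ) / 2 ^ n →
        ∃ S : Submodule ℝ (EuclideanSpace ℝ (Fin d)), Module.finrank ℝ S ≤ K ∧
          ({i : Fin n | (n : ℝ) ^ (-ε) < Metric.infDist (a i) S}.ncard : ℝ) ≤ (n : ℝ) ^ ε :=
  fun ε h0 h1 C hC => Pool.Agent.MP_ece343_co.inverse_LO ε h0 h1 C hC

end Pool.Agent.Results.MP_ece343_co.InverseLO
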